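import Pool.Agent.H688R2.Gap.Low

/-!
# No refutation with small orbits if there is an infinite model
-/

namespace H688R2.Gap

open Equiv Finset H688R2.Sym H534R2.SymSw

section main

variable {σ : Sig} {α B M Q : Type} [DecidableEq α] [Fintype α] [MulAction (Perm α) Q]

theorem card_biUnion_le' {ι β : Type*} [DecidableEq β] (s : Finset ι) (t : ι → Finset β) (n : ℕ)
    (h : ∀ i ∈ s, (t i).card ≤ n) : (s.biUnion t).card ≤ s.card * n :=
  Finset.card_biUnion_le_card_mul s t n h

/-- All derived lines are virtually true. -/
theorem valid_of_derives [Fintype B] [Infinite M] (F : Dag (Atom σ (α ⊕ B)) Q) (hF : F.Invariant)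
    (Φ : Sentence σ) (S : Atom σ M → Prop) (hS : Φ.Models S) {k w c : ℕ}
    (hsup : ∀ q : Q, (sup q : Finset α).card ≤ k ∧ IsSup (sup q : Finset α) q)
    (hK : w * k + c * (3 * k + Φ.p + Φ.q) + 2 * k + 3 ≤ Fintype.card α)
    (L : Finset (Q × Bool)) (hL : F.Derives Φ w c L) :
    ∀ f : (α ⊕ B) ↪ M, SatLine (fun q => V F S q f) L := by
  classical
  induction hL with
  | infer L D X P hw hc hP h ih =>
  intro f
  -- the support of everything
  let ZX : Finset α := X.biUnion fun x => univ.biUnion fun i =>
    Sum.elim (fun a => ({a} : Finset α)) (fun _ => ∅) (x i)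
  let Z0 : Finset α := (L.biUnion fun l => sup l.1) ∪ (D.biUnion fun d => sup d) ∪ ZX
  have hZX : ZX.card ≤ X.card * Φ.p := by
    apply card_biUnion_le'
    intro x _
    calc _ ≤ (univ : Finset (Fin Φ.p)).card * 1 := by
          apply card_biUnion_le'
          intro i _
          rcases x i with a | b
          · simp
          · simp
      _ = Φ.p := by simp
  have hZ0 : Z0.card ≤ w * k + D.card * k + X.card * Φ.p := by
    have h1 : (L.biUnion fun l => (sup l.1 : Finset α)).card ≤ L.card * k :=
      card_biUnion_le' _ _ _ fun l _ => (hsup l.1).1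
    have h2 : (D.biUnion fun d => (sup d : Finset α)).card ≤ D.card * k :=
      card_biUnion_le' _ _ _ fun d _ => (hsup d).1
    have h3 : L.card * k ≤ w * k := Nat.mul_le_mul_right _ hw
    refine (card_union_le _ _).trans ?_
    have := card_union_le (L.biUnion fun l => (sup l.1 : Finset α)) (D.biUnion fun d => sup d)
    omega
  -- witnesses
  let WP : Q → (Prop → Prop) → Prop := fun d ε => ∃ r : Q × ((α ⊕ B) ↪ M),
    F.child d r.1 ∧ Agree d f r.2 ∧ ε (V F S r.1 r.2)
  let Yd : Q → (Prop → Prop) → Finset M := fun d ε =>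
    if hd : WP d ε then (sup hd.choose.1 : Finset α).image fun a => hd.choose.2 (.inl a) else ∅
  have hYd : ∀ d ε, (Yd d ε).card ≤ k := by
    intro d ε
    simp only [Yd]
    split_ifs with hd
    · exact card_image_le.trans (hsup _).1
    · simp
  choose yX hyX using fun x : Fin Φ.p → α ⊕ B => hS (fun i => f (x i))
  let Y : Finset M := (D.biUnion fun d => Yd d id ∪ Yd d Not) ∪ X.biUnion fun x => univ.image (yX x)
  have hY : Y.card ≤ D.card * (2 * k) + X.card * Φ.q := by
    have h1 : (D.biUnion fun d => Yd d id ∪ Yd d Not).card ≤ D.card * (2 * k) := by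
      apply card_biUnion_le'
      intro d _
      have := card_union_le (Yd d id) (Yd d Not)
      have := hYd d id
      have := hYd d Not
      omega
    have h2 : (X.biUnion fun x => univ.image (yX x)).card ≤ X.card * Φ.q := by
      apply card_biUnion_le'
      intro x _
      exact card_image_le.trans (by simp)
    exact (card_union_le _ _).trans (by omega)
  have hcc : D.card * (3 * k) + X.card * (Φ.p + Φ.q) ≤ c * (3 * k + Φ.p + Φ.q) := by
    calc D.card * (3 * k) + X.card * (Φ.p + Φ.q)
        ≤ D.card * (3 * k + Φ.p + Φ.q) + X.card * (3 * k + Φ.p + Φ.q) := by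
          apply Nat.add_le_add
          · exact Nat.mul_le_mul_left _ (by omega)
          · exact Nat.mul_le_mul_left _ (by omega)
      _ = (D.card + X.card) * (3 * k + Φ.p + Φ.q) := by ring
      _ ≤ _ := Nat.mul_le_mul_right _ hc
  have hcc' : D.card * (3 * k) + X.card * (Φ.p + Φ.q)
      = D.card * k + D.card * (2 * k) + X.card * Φ.p + X.card * Φ.q := by ring
  -- the new placement
  obtain ⟨f', hf1, hf2⟩ := exists_cover f
    (Z0.map ⟨Sum.inl, Sum.inl_injective⟩ ∪ univ.map ⟨Sum.inr, Sum.inr_injective⟩) Y (by
      have h1 : (Y \ (Z0.map ⟨Sum.inl, Sum.inl_injective⟩ ∪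
        univ.map ⟨Sum.inr, Sum.inr_injective⟩ : Finset (α ⊕ B)).map f).card ≤ Y.card :=
        card_le_card sdiff_subset
      have h2 := card_union_le (Z0.map ⟨Sum.inl, Sum.inl_injective⟩ : Finset (α ⊕ B))
        (univ.map ⟨Sum.inr, Sum.inr_injective⟩)
      rw [card_map, card_map, card_univ] at h2
      rw [Fintype.card_sum]
      omega)
  have hfl : ∀ a ∈ Z0, f' (.inl a) = f (.inl a) := by
    intro a ha
    apply hf1
    rw [mem_union, mem_map]
    exact Or.inl ⟨a, ha, rfl⟩
  have hfr : ∀ b, f' (.inr b) = f (.inr b) := by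
    intro b
    apply hf1
    rw [mem_union]
    right
    rw [mem_map]
    exact ⟨b, mem_univ _, rfl⟩
  have hZL : ∀ l ∈ L, Agree l.1 f f' := by
    intro l hl
    refine ⟨hfr, fun a ha => hfl a ?_⟩
    simp only [Z0, mem_union, mem_biUnion]
    exact Or.inl (Or.inl ⟨l, hl, ha⟩)
  have hZD : ∀ d ∈ D, Agree d f f' := by
    intro d hd
    refine ⟨hfr, fun a ha => hfl a ?_⟩
    simp only [Z0, mem_union, mem_biUnion]
    exact Or.inl (Or.inr ⟨d, hd, ha⟩)
  have hkK : ∀ q : Q, (sup q : Finset α).card + 3 ≤ Fintype.card α := by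
    intro q
    have := (hsup q).1
    omega
  -- the inference is sound for the virtual values at `f'`
  have hsat : SatLine (fun q => V F S q f') L := by
    apply h (fun a => S (a.map f')) (fun q => V F S q f')
    · intro q a hq
      exact V_var F S hq f'
    · intro d hd hvar
      show V F S d f' ↔ F.conn d (∃ q', F.child d q' ∧ V F S q' f')
        (∃ q', F.child d q' ∧ ¬ V F S q' f')
      rw [V_conn F S hvar]
      have key : ∀ ε : Prop → Prop, (∀ x ∈ Yd d ε, ∃ z, f' z = x) →
          ((∃ q', F.child d q' ∧ ∃ f'', Agree d f' f'' ∧ ε (V F S q' f'')) ↔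
            (∃ q', F.child d q' ∧ ε (V F S q' f'))) := by
        intro ε hε
        constructor
        · rintro ⟨q', h1, f'', h2, h3⟩
          have hW : WP d ε := ⟨(q', f''), h1, ((hZD d hd).iff_of _ _).2 h2, h3⟩
          obtain ⟨g1, g2, g3⟩ := hW.choose_spec
          have g2' : Agree d f' hW.choose.2 := ((hZD d hd).iff_of _ _).1 g2
          obtain ⟨g, e1, e2, e3⟩ := realise d hW.choose.1 (hsup _).1 (hsup _).1
            (by omega) f' hW.choose.2 g2' (by
              intro a ha
              apply hε
              simp only [Yd]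
              rw [dif_pos hW]
              exact mem_image_of_mem _ ha)
          have hgd : g • d = d := (hsup d).2 g e1 e2
          refine ⟨g • hW.choose.1, ?_, ?_⟩
          · have := hF.child g d hW.choose.1
            rw [hgd] at this
            exact this.2 g1
          · have hagr : Agree (g • hW.choose.1) (pre g hW.choose.2) f' := by
              refine ⟨fun b => ?_, fun a ha => ?_⟩
              · rw [pre_inr, g2'.1]
              · obtain ⟨a, rfl⟩ := g.surjective a
                rw [mem_sup_smul] at ha
                rw [pre_inl, e3 a ha]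
            rw [← V_congr F hF S (hsup _).2 (hkK _) hagr, V_pre F hF S g _ _ rfl]
            exact g3
        · rintro ⟨q', h1, h2⟩
          exact ⟨q', h1, f', Agree.refl _ _, h2⟩
      have hYsub : ∀ ε, (ε = id ∨ ε = Not) → ∀ x ∈ Yd d ε, ∃ z, f' z = x := by
        intro ε hε x hx
        apply hf2
        simp only [Y, mem_union, mem_biUnion]
        left
        refine ⟨d, hd, ?_⟩
        rcases hε with rfl | rfl
        · exact Or.inl hx
        · exact Or.inr hx
      have k1 := key id (hYsub _ (Or.inl rfl))
      have k2 := key Not (hYsub _ (Or.inr rfl))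
      simp only [id] at k1
      rw [k1, k2]
    · intro x hx
      have hy := hyX x
      have hyr : ∀ i, ∃ z, f' z = yX x i := by
        intro i
        apply hf2
        simp only [Y, mem_union, mem_biUnion]
        exact Or.inr ⟨x, hx, mem_image_of_mem _ (mem_univ i)⟩
      choose y hy' using hyr
      refine ⟨y, ?_⟩
      have hxf : ∀ i, f' (x i) = f (x i) := by
        intro i
        rcases hi : x i with a | b
        · apply hfl
          simp only [Z0, ZX, mem_union, mem_biUnion]
          right
          refine ⟨x, hx, i, mem_univ _, ?_⟩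
          rw [hi]
          simp
        · exact hfr b
      have hcomp : ∀ z, f' (Sum.elim x y z) = Sum.elim (fun i => f (x i)) (yX x) z := by
        rintro (i | i)
        · exact hxf i
        · exact hy' i
      have e1 : (fun i j => Sum.elim x y i = Sum.elim x y j)
          = (fun i j => Sum.elim (fun i => f (x i)) (yX x) i
            = Sum.elim (fun i => f (x i)) (yX x) j) := by
        funext i j
        rw [← hcomp, ← hcomp]
        exact propext f'.injective.eq_iff.symm
      have e2 : (fun a : Atom σ (Fin Φ.p ⊕ Fin Φ.q) => S ((a.map (Sum.elim x y)).map f'))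
          = (fun a => S (a.map (Sum.elim (fun i => f (x i)) (yX x)))) := by
        funext a
        congr 1
        unfold Atom.map
        simp only
        congr 1
        funext i
        exact hcomp _
      rw [e1, e2]
      exact hy
    · intro L' hL'
      exact ih L' hL' f'
  obtain ⟨l, hl, hval⟩ := hsat
  refine ⟨l, hl, ?_⟩
  show V F S l.1 f ↔ l.2 = true
  rw [V_congr F hF S (hsup _).2 (hkK _) (hZL l hl)]
  exact hval

/-- the canonical support of an element with a small orbit is small -/
theorem small_sup_orbit {k : ℕ} (hk : 1 ≤ k) (q : Q)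
    (hX : Nat.card (MulAction.orbit (Perm α) q) ^ 2 ≤ Fintype.card α ^ k)
    (hK : 16 * (k + 1) * (k + 1) * (Nat.log 2 (Fintype.card α) + 1) ≤ Fintype.card α) :
    (sup q : Finset α).card ≤ k ∧ IsSup (sup q : Finset α) q := by
  classical
  let X := MulAction.orbit (Perm α) q
  have hfin : Finite X := Set.finite_range _
  have := Fintype.ofFinite X
  let q' : X := ⟨q, MulAction.mem_orbit_self q⟩
  obtain ⟨h1, h2⟩ := small_sup (α := α) (X := X) hk (by
    rw [← Nat.card_eq_fintype_card]; exact hX) hK q'
  have h3 : IsSup (sup q' : Finset α) q := by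
    intro π hπ hfix
    exact congrArg Subtype.val (h2 π hπ hfix)
  have hc : 2 * (sup q' : Finset α).card + 3 ≤ Fintype.card α := by
    have : 16 * (k + 1) * (k + 1) ≤ Fintype.card α :=
      le_trans (Nat.le_mul_of_pos_right _ (by omega)) hK
    nlinarith
  exact ⟨(card_le_card (sup_subset h3 hc)).trans h1, isSup_sup h3 hc⟩

end main

/-- **Lower bound.**  If the sentence has an infinite model, then every refutation that is
invariant under the permutations of `α` contains a formula with many images. -/
theorem not_refutes {σ : Sig} (Φ : Sentence σ) {M : Type} [Infinite M] (S : Atom σ M → Prop)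
    (hS : Φ.Models S) {α B Q : Type} [Fintype α] [Fintype B] [MulAction (Perm α) Q]
    (F : Dag (Atom σ (α ⊕ B)) Q) (hF : F.Invariant) {k w c : ℕ} (hk : 1 ≤ k)
    (hQ : ∀ q : Q, Nat.card (MulAction.orbit (Perm α) q) ^ 2 ≤ Fintype.card α ^ k)
    (hK1 : 16 * (k + 1) * (k + 1) * (Nat.log 2 (Fintype.card α) + 1) ≤ Fintype.card α)
    (hK2 : w * k + c * (3 * k + Φ.p + Φ.q) + 2 * k + 3 ≤ Fintype.card α) :
    ¬ F.Refutes Φ w c := by
  classical
  intro h
  let f : (α ⊕ B) ↪ M := (Fintype.equivFin (α ⊕ B)).toEmbedding.trans
    (Fin.valEmbedding.trans (Infinite.natEmbedding M))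
  obtain ⟨l, hl, _⟩ := valid_of_derives F hF Φ S hS (fun q => small_sup_orbit hk q (hQ q) hK1) hK2
    ∅ h f
  exact absurd hl (notMem_empty l)

end H688R2.Gap
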