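import Pool.Agent.H688R2.Gap.Defs
import Pool.Agent.H688R2.Sym.Sup

/-!
# The lower bound: virtual truth values in an infinite model
-/

namespace H688R2.Gap

open Equiv Finset H688R2.Sym H534R2.SymSw

section ext

/-- an injective partial map extends to an even permutation -/
theorem exists_even {α : Type*} [DecidableEq α] [Fintype α] (T : Finset α) (φ : α → α)
    (hφ : Set.InjOn φ T) (hT : T.card + 2 ≤ Fintype.card α) :
    ∃ g : Perm α, Perm.sign g = 1 ∧ ∀ a ∈ T, g a = φ a := by
  obtain ⟨g0, hg0⟩ := Finset.exists_equiv_extend_of_card_eq (t := (univ : Finset α))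
    (α := α) (s := T) (f := φ) (by rw [card_univ]) (subset_univ _) hφ
  let g : Perm α := g0.trans (Equiv.subtypeUnivEquiv (fun x => mem_univ x))
  have hg : ∀ a ∈ T, g a = φ a := fun a ha => hg0 a ha
  rcases Int.units_eq_one_or (Perm.sign g) with h | h
  · exact ⟨g, h, hg⟩
  · have : 1 < (Tᶜ : Finset α).card := by rw [card_compl]; omega
    obtain ⟨u, hu, v, hv, huv⟩ := Finset.one_lt_card.1 this
    rw [mem_compl] at hu hv
    refine ⟨g * swap u v, ?_, ?_⟩
    · rw [Perm.sign_mul, h, Perm.sign_swap huv]; rfl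
    · intro a ha
      rw [Perm.mul_apply, swap_apply_of_ne_of_ne (fun e => hu (by rw [← e]; exact ha))
        (fun e => hv (by rw [← e]; exact ha))]
      exact hg a ha

/-- an injection into an infinite set can be changed outside a set so that it covers given
points -/
theorem exists_cover {A M : Type*} [DecidableEq A] [Fintype A] [DecidableEq M] [Infinite M]
    (f : A ↪ M) (Z : Finset A) (Y : Finset M)
    (h : Z.card + (Y \ Z.map f).card ≤ Fintype.card A) :
    ∃ f' : A ↪ M, (∀ a ∈ Z, f' a = f a) ∧ ∀ y ∈ Y, ∃ a, f' a = y := by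
  classical
  have hinf : ((Z.map f : Finset M) : Set M)ᶜ.Infinite :=
    (Z.map f).finite_toSet.infinite_compl
  have hsub : ((Y \ Z.map f : Finset M) : Set M) ⊆ ((Z.map f : Finset M) : Set M)ᶜ := by
    intro y hy
    simp only [coe_sdiff, Set.mem_sdiff, mem_coe] at hy
    simpa using hy.2
  have hcard : ((Y \ Z.map f : Finset M) : Set M).ncard ≤ (Zᶜ : Finset A).card := by
    rw [Set.ncard_coe_finset, card_compl]
    omega
  by_cases hz : (Zᶜ : Finset A).card = 0
  · refine ⟨f, fun _ _ => rfl, fun y hy => ?_⟩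
    rw [hz, Set.ncard_coe_finset, Nat.le_zero, card_eq_zero, sdiff_eq_empty_iff_subset] at hcard
    obtain ⟨a, _, ha⟩ := mem_map.1 (hcard hy)
    exact ⟨a, ha⟩
  obtain ⟨s, hs1, hs2, hs3⟩ := hinf.exists_superset_ncard_eq hsub (Finset.finite_toSet _) hcard
  have hsf : s.Finite := Set.finite_of_ncard_ne_zero (by omega)
  obtain ⟨t, rfl⟩ := hsf.exists_finset_coe
  rw [Set.ncard_coe_finset] at hs3
  let e : {x // x ∈ (Zᶜ : Finset A)} ≃ {x // x ∈ t} := Finset.equivOfCardEq hs3.symm
  have hnot : ∀ x : {x // x ∈ t}, ∀ a ∈ Z, f a ≠ x := by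
    intro x a ha hx
    have := hs2 x.2
    simp only [Set.mem_compl_iff, mem_coe] at this
    exact this (mem_map.2 ⟨a, ha, hx⟩)
  let F : A → M := fun a => if h : a ∈ (Zᶜ : Finset A) then (e ⟨a, h⟩ : M) else f a
  have hF1 : ∀ a (h : a ∈ (Zᶜ : Finset A)), F a = e ⟨a, h⟩ := fun a h => by
    simp only [F]; rw [dif_pos h]
  have hF2 : ∀ a, a ∈ Z → F a = f a := fun a h => by
    simp only [F]; rw [dif_neg (by simpa using h)]
  have hFi : Function.Injective F := by
    intro a b hab
    by_cases ha : a ∈ Z <;> by_cases hb : b ∈ Z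
    · rw [hF2 a ha, hF2 b hb] at hab
      exact f.injective hab
    · rw [hF2 a ha, hF1 b (mem_compl.2 hb)] at hab
      exact absurd hab (hnot _ a ha)
    · rw [hF1 a (mem_compl.2 ha), hF2 b hb] at hab
      exact absurd hab.symm (hnot _ b hb)
    · rw [hF1 a (mem_compl.2 ha), hF1 b (mem_compl.2 hb)] at hab
      have := e.injective (Subtype.ext hab)
      exact congrArg Subtype.val this
  refine ⟨⟨F, hFi⟩, hF2, ?_⟩
  intro y hy
  by_cases hyf : y ∈ Z.map f
  · obtain ⟨a, ha, rfl⟩ := mem_map.1 hyf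
    exact ⟨a, hF2 a ha⟩
  · have hyt : y ∈ t := by
      have : y ∈ ((Y \ Z.map f : Finset M) : Set M) := by
        simp only [coe_sdiff, Set.mem_sdiff, mem_coe]
        exact ⟨hy, hyf⟩
      exact hs1 this
    refine ⟨e.symm ⟨y, hyt⟩, ?_⟩
    show F _ = y
    rw [hF1 _ (e.symm ⟨y, hyt⟩).2]
    simp

end ext

section virt

variable {σ : Sig} {α B M Q : Type} [DecidableEq α] [Fintype α] [MulAction (Perm α) Q]

/-- `f'` agrees with `f` on `B` and on the support of `q` -/
def Agree (q : Q) (f f' : (α ⊕ B) ↪ M) : Prop :=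
  (∀ b, f' (.inr b) = f (.inr b)) ∧ ∀ a ∈ (sup q : Finset α), f' (.inl a) = f (.inl a)

theorem Agree.refl (q : Q) (f : (α ⊕ B) ↪ M) : Agree q f f := ⟨fun _ => rfl, fun _ _ => rfl⟩

theorem Agree.iff_of (q : Q) {f f' : (α ⊕ B) ↪ M} (h : Agree q f f') (f'' : (α ⊕ B) ↪ M) :
    Agree q f f'' ↔ Agree q f' f'' := by
  constructor
  · rintro ⟨h1, h2⟩
    exact ⟨fun b => (h1 b).trans (h.1 b).symm, fun a ha => (h2 a ha).trans (h.2 a ha).symm⟩
  · rintro ⟨h1, h2⟩
    exact ⟨fun b => (h1 b).trans (h.1 b), fun a ha => (h2 a ha).trans (h.2 a ha)⟩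

/-- the virtual truth value of `q` when the elements are placed in `M` by `f` -/
noncomputable def V (F : Dag (Atom σ (α ⊕ B)) Q) (S : Atom σ M → Prop) (q : Q) :
    ((α ⊕ B) ↪ M) → Prop := fun f =>
  match F.var q with
  | some a => S (a.map f)
  | none => F.conn q (∃ q' : {q' // F.child q q'}, ∃ f', Agree q f f' ∧ V F S q'.1 f')
      (∃ q' : {q' // F.child q q'}, ∃ f', Agree q f f' ∧ ¬ V F S q'.1 f')
termination_by F.level q
decreasing_by all_goals exact F.child_lt _ _ q'.2

theorem V_var (F : Dag (Atom σ (α ⊕ B)) Q) (S : Atom σ M → Prop) {q : Q} {a} (h : F.var q = some a)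
    (f : (α ⊕ B) ↪ M) : V F S q f ↔ S (a.map f) := by
  rw [V, h]

theorem V_conn (F : Dag (Atom σ (α ⊕ B)) Q) (S : Atom σ M → Prop) {q : Q} (h : F.var q = none)
    (f : (α ⊕ B) ↪ M) : V F S q f ↔
      F.conn q (∃ q', F.child q q' ∧ ∃ f', Agree q f f' ∧ V F S q' f')
        (∃ q', F.child q q' ∧ ∃ f', Agree q f f' ∧ ¬ V F S q' f') := by
  rw [V, h]
  simp only [Subtype.exists, exists_prop]

/-- renaming the elements before placing them -/
def pre (g : Perm α) (f : (α ⊕ B) ↪ M) : (α ⊕ B) ↪ M :=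
  (Equiv.sumCongr g⁻¹ (Equiv.refl B)).toEmbedding.trans f

omit [DecidableEq α] [Fintype α] in
theorem pre_inl (g : Perm α) (f : (α ⊕ B) ↪ M) (a : α) : pre g f (.inl (g a)) = f (.inl a) := by
  simp [pre]

omit [DecidableEq α] [Fintype α] in
theorem pre_inr (g : Perm α) (f : (α ⊕ B) ↪ M) (b : B) : pre g f (.inr b) = f (.inr b) := by
  simp [pre]

omit [DecidableEq α] [Fintype α] in
theorem pre_pre_inv (g : Perm α) (f : (α ⊕ B) ↪ M) : pre g (pre g⁻¹ f) = f := by
  ext x
  rcases x with a | b
  · simp [pre]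
  · simp [pre]

omit [DecidableEq α] [Fintype α] in
theorem map_pre (g : Perm α) (f : (α ⊕ B) ↪ M) (a : Atom σ (α ⊕ B)) :
    (a.map (Sum.map g id)).map (pre g f) = a.map f := by
  unfold Atom.map
  simp only
  congr 1
  funext i
  rcases a.2 i with x | b
  · exact pre_inl g f x
  · exact pre_inr g f b

theorem agree_pre (g : Perm α) (q : Q) (f f' : (α ⊕ B) ↪ M) :
    Agree (g • q) (pre g f) (pre g f') ↔ Agree q f f' := by
  unfold Agree
  simp only [pre_inr]
  refine and_congr_right fun _ => ?_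
  constructor
  · intro h a ha
    have := h (g a) ((mem_sup_smul g q a).2 ha)
    rwa [pre_inl, pre_inl] at this
  · intro h a ha
    obtain ⟨a, rfl⟩ := g.surjective a
    rw [pre_inl, pre_inl]
    exact h a ((mem_sup_smul g q a).1 ha)

theorem V_pre (F : Dag (Atom σ (α ⊕ B)) Q) (hF : F.Invariant) (S : Atom σ M → Prop) (g : Perm α) :
    ∀ n q, F.level q = n → ∀ f : (α ⊕ B) ↪ M, V F S (g • q) (pre g f) ↔ V F S q f := by
  intro n
  induction n using Nat.strong_induction_on with
  | _ n ih =>
    intro q hq f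
    rcases hv : F.var q with _ | a
    · have hv' : F.var (g • q) = none := by rw [hF.var, hv]; rfl
      rw [V_conn F S hv', V_conn F S hv, hF.conn]
      have key : ∀ ε : Prop → Prop,
          (∃ q', F.child (g • q) q' ∧ ∃ f', Agree (g • q) (pre g f) f' ∧ ε (V F S q' f')) ↔
            (∃ q', F.child q q' ∧ ∃ f', Agree q f f' ∧ ε (V F S q' f')) := by
        intro ε
        constructor
        · rintro ⟨q', h1, f', h2, h3⟩
          have e1 : q' = g • (g⁻¹ • q') := (smul_inv_smul g q').symm
          have e2 : f' = pre g (pre g⁻¹ f') := (pre_pre_inv g f').symm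
          rw [e1, hF.child] at h1
          rw [e2, agree_pre] at h2
          rw [e1, e2, ih _ (by rw [← hq]; exact F.child_lt _ _ h1) _ rfl] at h3
          exact ⟨_, h1, _, h2, h3⟩
        · rintro ⟨q', h1, f', h2, h3⟩
          refine ⟨g • q', (hF.child _ _ _).2 h1, pre g f', (agree_pre _ _ _ _).2 h2, ?_⟩
          rw [ih _ (by rw [← hq]; exact F.child_lt _ _ h1) _ rfl]
          exact h3
      have k1 := key id
      have k2 := key Not
      simp only [id] at k1
      rw [k1, k2]
    · have hv' : F.var (g • q) = some (a.map (Sum.map g id)) := by rw [hF.var, hv]; rfl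
      rw [V_var F S hv', V_var F S hv, map_pre]

/-- the elements occurring in a variable belong to its support -/
theorem mem_sup_of_var (F : Dag (Atom σ (α ⊕ B)) Q) (hF : F.Invariant) {q : Q} {a}
    (hq : IsSup (sup q : Finset α) q) (hc : (sup q : Finset α).card + 3 ≤ Fintype.card α)
    (h : F.var q = some a) {i} {x : α} (hx : a.2 i = .inl x) : x ∈ (sup q : Finset α) := by
  by_contra hxs
  have h1 : 2 ≤ ((insert x (sup q : Finset α))ᶜ).card := by
    rw [card_compl]
    have := card_insert_le x (sup q : Finset α)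
    omega
  obtain ⟨y, hy, z, hz, hyz⟩ := Finset.one_lt_card.1 (show 1 < _ from h1)
  simp only [mem_compl, mem_insert, not_or] at hy hz
  have hfix : c3 x y z • q = q := by
    apply hq
    · unfold c3
      rw [map_mul, Perm.sign_swap (Ne.symm hy.1), Perm.sign_swap hyz]
      rfl
    · intro w hw
      apply c3_apply_of_ne
      · rintro rfl; exact hxs hw
      · rintro rfl; exact hy.2 hw
      · rintro rfl; exact hz.2 hw
  have h2 := hF.var (c3 x y z) q
  rw [hfix, h] at h2
  simp only [Option.map_some, Option.some.injEq] at h2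
  have h3 : a.2 i = Sum.map (c3 x y z) id (a.2 i) := by
    have : ∀ b : Atom σ (α ⊕ B), a = b → ∀ j : Fin (σ.ar b.1), HEq i j → a.2 i = b.2 j := by
      rintro b rfl j hj
      rw [eq_of_heq hj]
    exact this _ h2 i HEq.rfl
  rw [hx] at h3
  simp only [Sum.map_inl, Sum.inl.injEq] at h3
  rw [c3_apply1 (Ne.symm hy.1) (Ne.symm hz.1)] at h3
  exact hy.1 h3.symm

theorem V_congr (F : Dag (Atom σ (α ⊕ B)) Q) (hF : F.Invariant) (S : Atom σ M → Prop) {q : Q}
    (hq : IsSup (sup q : Finset α) q) (hc : (sup q : Finset α).card + 3 ≤ Fintype.card α)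
    {f f' : (α ⊕ B) ↪ M} (h : Agree q f f') : V F S q f ↔ V F S q f' := by
  rcases hv : F.var q with _ | a
  · rw [V_conn F S hv, V_conn F S hv]
    simp only [h.iff_of]
  · rw [V_var F S hv, V_var F S hv]
    have : a.map f = a.map f' := by
      unfold Atom.map
      congr 1
      funext i
      rcases hi : a.2 i with x | b
      · exact (h.2 x (mem_sup_of_var F hF hq hc hv hi)).symm
      · exact (h.1 b).symm
    rw [this]

/-- a virtual child of `d` can be moved to a real one -/
theorem realise {k : ℕ} (d q : Q) (hd : (sup d : Finset α).card ≤ k)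
    (hq : (sup q : Finset α).card ≤ k) (hk : 2 * k + 2 ≤ Fintype.card α)
    (f f' : (α ⊕ B) ↪ M) (h : Agree d f f')
    (hr : ∀ a ∈ (sup q : Finset α), ∃ z, f z = f' (.inl a)) :
    ∃ g : Perm α, Perm.sign g = 1 ∧ (∀ a ∈ (sup d : Finset α), g a = a) ∧
      ∀ a ∈ (sup q : Finset α), f (.inl (g a)) = f' (.inl a) := by
  classical
  have hr' : ∀ a ∈ (sup q : Finset α), ∃ a', f (.inl a') = f' (.inl a) := by
    intro a ha
    obtain ⟨z, hz⟩ := hr a ha
    rcases z with a' | b
    · exact ⟨a', hz⟩
    · rw [← h.1 b] at hz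
      exact absurd (f'.injective hz) (by simp)
  let φ : α → α := fun a => if a ∈ (sup d : Finset α) then a else
    if ha : a ∈ (sup q : Finset α) then (hr' a ha).choose else a
  have hφ : ∀ a ∈ (sup d : Finset α) ∪ sup q, f (.inl (φ a)) = f' (.inl a) := by
    intro a ha
    by_cases had : a ∈ (sup d : Finset α)
    · simp only [φ, if_pos had]
      exact (h.2 a had).symm
    · have haq : a ∈ (sup q : Finset α) := by
        rcases mem_union.1 ha with h | h
        · exact absurd h had
        · exact h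
      simp only [φ, if_neg had, dif_pos haq]
      exact (hr' a haq).choose_spec
  obtain ⟨g, hg1, hg2⟩ := exists_even ((sup d : Finset α) ∪ sup q) φ (by
    intro a ha b hb hab
    have h1 := hφ a ha
    have h2 := hφ b hb
    rw [hab, h2] at h1
    exact (Sum.inl.inj (f'.injective h1)).symm) (by
    have := card_union_le (sup d : Finset α) (sup q)
    omega)
  refine ⟨g, hg1, ?_, ?_⟩
  · intro a ha
    rw [hg2 a (mem_union_left _ ha)]
    simp only [φ, if_pos ha]
  · intro a ha
    rw [hg2 a (mem_union_right _ ha)]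
    exact hφ a (mem_union_right _ ha)

end virt

end H688R2.Gap
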