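import Mathlib

/-!
# Propositional refutations of first-order sentences, and their symmetries
-/

namespace H688R2.Gap

open Equiv

/-- A relational signature: the relation symbols and their arities. -/
structure Sig where
  R : Type
  ar : R → ℕ

/-- The atomic facts about the elements of `A`: a relation symbol and a tuple. -/
def Atom (σ : Sig) (A : Type) : Type := Σ r : σ.R, (Fin (σ.ar r) → A)

/-- Renaming the elements in an atomic fact. -/
def Atom.map {σ : Sig} {A B : Type} (f : A → B) (a : Atom σ A) : Atom σ B :=
  ⟨a.1, fun i => f (a.2 i)⟩

/-- A sentence `∀ x₁ … x_p ∃ y₁ … y_q θ`; the quantifier-free formula `θ` is given by the set of the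
descriptions of the tuples `(x, y)` that satisfy it: which entries are equal and which atomic facts
hold among them. -/
structure Sentence (σ : Sig) where
  p : ℕ
  q : ℕ
  θ : (Fin p ⊕ Fin q → Fin p ⊕ Fin q → Prop) → (Atom σ (Fin p ⊕ Fin q) → Prop) → Prop

/-- The instance `∃ y θ(x, y)` of the sentence for the tuple `x`, in the structure on `A` in which
the atomic facts in `S` hold. -/
def Sentence.Inst {σ : Sig} (Φ : Sentence σ) {A : Type} (S : Atom σ A → Prop)
    (x : Fin Φ.p → A) : Prop :=
  ∃ y : Fin Φ.q → A, Φ.θ (fun i j => Sum.elim x y i = Sum.elim x y j)
    (fun a => S (a.map (Sum.elim x y)))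

/-- The structure `S` on `A` is a model of the sentence. -/
def Sentence.Models {σ : Sig} (Φ : Sentence σ) {A : Type} (S : Atom σ A → Prop) : Prop :=
  ∀ x : Fin Φ.p → A, Φ.Inst S x

/-- A set `Q` of formulas over the variables `I`, with shared subformulas (a circuit).  `child q q'`
means that `q'` is an immediate subformula of `q`; there may be any number of them.  The formula `q`
with `var q = some i` is the variable `i`.  Every other `q` is `conn q s t` where `s` says that some
immediate subformula is true and `t` that some immediate subformula is false: for instance `¬ t`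
for a conjunction, `s` for a disjunction and `t` for a negation. -/
structure Dag (I Q : Type) where
  level : Q → ℕ
  var : Q → Option I
  child : Q → Q → Prop
  conn : Q → Prop → Prop → Prop
  child_lt : ∀ q q', child q q' → level q' < level q

/-- The truth values `v` respect the definition of the formula `q`. -/
def Dag.Respects {I Q : Type} (F : Dag I Q) (v : Q → Prop) (q : Q) : Prop :=
  F.var q = none →
    (v q ↔ F.conn q (∃ q', F.child q q' ∧ v q') (∃ q', F.child q q' ∧ ¬ v q'))

/-- The line `L` of a refutation, a set of signed formulas, is true: some formula `q` with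
`(q, true) ∈ L` is true or some `q` with `(q, false) ∈ L` is false. -/
def SatLine {Q : Type} (v : Q → Prop) (L : Finset (Q × Bool)) : Prop :=
  ∃ l ∈ L, (v l.1 ↔ l.2 = true)

/-- `L` follows from the lines in `P`, the definitions of the formulas in `D` and the instances of
the sentence for the tuples in `X`, all other formulas being treated as atoms. -/
def Dag.Entails {σ : Sig} {A Q : Type} (F : Dag (Atom σ A) Q) (Φ : Sentence σ) (D : Finset Q)
    (X : Finset (Fin Φ.p → A)) (P : Set (Finset (Q × Bool))) (L : Finset (Q × Bool)) : Prop :=
  ∀ (S : Atom σ A → Prop) (v : Q → Prop),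
    (∀ q a, F.var q = some a → (v q ↔ S a)) → (∀ q ∈ D, F.Respects v q) →
    (∀ x ∈ X, Φ.Inst S x) → (∀ L' ∈ P, SatLine v L') → SatLine v L

/-- The lines that can be derived from the statement that the sentence has a model with domain `A`:
a line is a set of at most `w` signed formulas, and it may be inferred from any set of derived lines
with the help of at most `c` definitions of formulas and instances of the sentence. -/
inductive Dag.Derives {σ : Sig} {A Q : Type} (F : Dag (Atom σ A) Q) (Φ : Sentence σ) (w c : ℕ) :
    Finset (Q × Bool) → Prop
  | infer (L : Finset (Q × Bool)) (D : Finset Q) (X : Finset (Fin Φ.p → A))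
      (P : Set (Finset (Q × Bool))) (hw : L.card ≤ w) (hc : D.card + X.card ≤ c)
      (hP : ∀ L' ∈ P, F.Derives Φ w c L') (h : F.Entails Φ D X P L) : F.Derives Φ w c L

/-- The empty line is derived: this refutes the existence of a model with domain `A`. -/
def Dag.Refutes {σ : Sig} {A Q : Type} (F : Dag (Atom σ A) Q) (Φ : Sentence σ) (w c : ℕ) : Prop :=
  F.Derives Φ w c ∅

/-- The permutations of `α` act on the formulas by renaming elements of the domain `α ⊕ B`, so that
the set of formulas is closed under these renamings. -/
structure Dag.Invariant {σ : Sig} {α B Q : Type} [MulAction (Perm α) Q]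
    (F : Dag (Atom σ (α ⊕ B)) Q) : Prop where
  var : ∀ (g : Perm α) q, F.var (g • q) = (F.var q).map (Atom.map (Sum.map g id))
  child : ∀ (g : Perm α) q q', F.child (g • q) (g • q') ↔ F.child q q'
  conn : ∀ (g : Perm α) q, F.conn (g • q) = F.conn q

/-- No formulas except the variables. -/
def justAtoms (σ : Sig) (A : Type) : Dag (Atom σ A) (Atom σ A) where
  level := fun _ => 0
  var := some
  child := fun _ _ => False
  conn := fun _ _ _ => False
  child_lt := fun _ _ h => h.elim

end H688R2.Gap
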