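import Pool.Agent.H688R2.Gap.Defs

/-!
# Constant width refutations if there is no infinite model
-/

namespace H688R2.Gap

open Finset

section basic

variable {σ : Sig}

/-- `φ` embeds the structure `s` into the structure `s'` -/
def Ext {A A' : Type} (φ : A → A') (s : Atom σ A → Prop) (s' : Atom σ A' → Prop) : Prop :=
  ∀ a, s' (a.map φ) ↔ s a

theorem map_map {A A' A'' : Type} (φ : A → A') (ψ : A' → A'') (a : Atom σ A) :
    (a.map φ).map ψ = a.map (fun x => ψ (φ x)) := rfl

theorem Ext.comp {A A' A'' : Type} {φ : A → A'} {ψ : A' → A''} {s : Atom σ A → Prop}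
    {s' : Atom σ A' → Prop} {s'' : Atom σ A'' → Prop} (h : Ext φ s s') (h' : Ext ψ s' s'') :
    Ext (fun x => ψ (φ x)) s s'' := fun a => by rw [← map_map, h', h]

theorem theta_iff (Φ : Sentence σ) {A A' : Type} {φ : A → A'} (hφ : Function.Injective φ)
    {s : Atom σ A → Prop} {s' : Atom σ A' → Prop} (h : Ext φ s s') (x : Fin Φ.p → A)
    (y : Fin Φ.q → A) (x' : Fin Φ.p → A') (y' : Fin Φ.q → A') (hx : ∀ i, x' i = φ (x i))
    (hy : ∀ i, y' i = φ (y i)) :
    Φ.θ (fun i j => Sum.elim x y i = Sum.elim x y j) (fun a => s (a.map (Sum.elim x y))) ↔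
      Φ.θ (fun i j => Sum.elim x' y' i = Sum.elim x' y' j)
        (fun a => s' (a.map (Sum.elim x' y'))) := by
  have hc : ∀ z, Sum.elim x' y' z = φ (Sum.elim x y z) := by
    rintro (i | i)
    · exact hx i
    · exact hy i
  have e1 : (fun i j => Sum.elim x' y' i = Sum.elim x' y' j)
      = (fun i j => Sum.elim x y i = Sum.elim x y j) := by
    funext i j
    rw [hc, hc]
    exact propext hφ.eq_iff
  have e2 : (fun a : Atom σ (Fin Φ.p ⊕ Fin Φ.q) => s' (a.map (Sum.elim x' y')))
      = (fun a => s (a.map (Sum.elim x y))) := by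
    funext a
    have : a.map (Sum.elim x' y') = (a.map (Sum.elim x y)).map φ := by
      rw [map_map]
      unfold Atom.map
      congr 1
      funext i
      exact hc _
    rw [this]
    exact propext (h _)
  rw [e1, e2]

theorem Inst.mono (Φ : Sentence σ) {A A' : Type} {φ : A → A'} (hφ : Function.Injective φ)
    {s : Atom σ A → Prop} {s' : Atom σ A' → Prop} (h : Ext φ s s') {x : Fin Φ.p → A}
    (hI : Φ.Inst s x) : Φ.Inst s' (fun i => φ (x i)) := by
  obtain ⟨y, hy⟩ := hI
  exact ⟨fun i => φ (y i), (theta_iff Φ hφ h x y _ _ (fun _ => rfl) (fun _ => rfl)).1 hy⟩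

theorem extend {A : Type} {j n : ℕ} (z : Fin j ↪ A) (new : Finset A) (hn : new.card = n)
    (hd : ∀ i, z i ∉ new) : ∃ z' : Fin (j + n) ↪ A,
      (∀ i, z' (Fin.castLE (Nat.le_add_right j n) i) = z i) ∧ ∀ a ∈ new, ∃ i, z' i = a := by
  let e : Fin n ≃ {x // x ∈ new} := (new.equivFinOfCardEq hn).symm
  let z' : Fin (j + n) ↪ A := finSumFinEquiv.symm.toEmbedding.trans
    ⟨Sum.elim z (fun i => (e i : A)), by
      rintro (a | a) (b | b) h
      · simp only [Sum.elim_inl] at h
        rw [z.injective h]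
      · simp only [Sum.elim_inl, Sum.elim_inr] at h
        exact absurd (by rw [h]; exact (e b).2) (hd a)
      · simp only [Sum.elim_inl, Sum.elim_inr] at h
        exact absurd (by rw [← h]; exact (e a).2) (hd b)
      · simp only [Sum.elim_inr] at h
        rw [e.injective (Subtype.ext h)]⟩
  refine ⟨z', ?_, ?_⟩
  · intro i
    show Sum.elim z (fun i => (e i : A)) (finSumFinEquiv.symm (Fin.castAdd n i)) = z i
    rw [finSumFinEquiv_symm_apply_castAdd]
    rfl
  · intro a ha
    refine ⟨finSumFinEquiv (Sum.inr (e.symm ⟨a, ha⟩)), ?_⟩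
    show Sum.elim z (fun i => (e i : A)) (finSumFinEquiv.symm (finSumFinEquiv _)) = a
    rw [Equiv.symm_apply_apply]
    simp

end basic

section game

variable {σ : Sig}

/-- The refuter wins the game from the structure `s` on `Fin j`: she may add an element or ask for
witnesses; the adversary answers with a larger structure. -/
inductive Win (Φ : Sentence σ) : (j : ℕ) → (Atom σ (Fin j) → Prop) → Prop
  | add (j : ℕ) (s : Atom σ (Fin j) → Prop)
      (h : ∀ s' : Atom σ (Fin (j + 1)) → Prop, Ext (Fin.castLE (Nat.le_add_right j 1)) s s' →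
        Win Φ (j + 1) s') : Win Φ j s
  | ask (j : ℕ) (s : Atom σ (Fin j) → Prop) (x : Fin Φ.p → Fin j)
      (h : ∀ n ≤ Φ.q, ∀ s' : Atom σ (Fin (j + n)) → Prop,
        Ext (Fin.castLE (Nat.le_add_right j n)) s s' →
        Φ.Inst s' (fun i => Fin.castLE (Nat.le_add_right j n) (x i)) → Win Φ (j + n) s') :
      Win Φ j s

instance [Finite σ.R] (A : Type) [Finite A] : Finite (Atom σ A) := by
  unfold Atom; infer_instance

open scoped Classical in
/-- the line saying that the diagram of `z` is not `s` -/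
noncomputable def clause [Finite σ.R] {A : Type} {j : ℕ} (z : Fin j ↪ A)
    (s : Atom σ (Fin j) → Prop) : Finset (Atom σ A × Bool) :=
  let _ := Fintype.ofFinite (Atom σ (Fin j))
  univ.image fun a : Atom σ (Fin j) => (a.map z, decide (¬ s a))

theorem card_clause [Finite σ.R] {A : Type} {j : ℕ} (z : Fin j ↪ A)
    (s : Atom σ (Fin j) → Prop) : (clause z s).card ≤ Nat.card (Atom σ (Fin j)) := by
  classical
  let _ := Fintype.ofFinite (Atom σ (Fin j))
  unfold clause
  rw [Nat.card_eq_fintype_card]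
  exact card_image_le.trans (by rw [card_univ])

theorem satLine_clause [Finite σ.R] {A : Type} {j : ℕ} (z : Fin j ↪ A)
    (s : Atom σ (Fin j) → Prop) (v : Atom σ A → Prop) :
    SatLine v (clause z s) ↔ ¬ Ext z s v := by
  classical
  let _ := Fintype.ofFinite (Atom σ (Fin j))
  unfold SatLine clause Ext
  constructor
  · rintro ⟨l, hl, h⟩
    rw [mem_image] at hl
    obtain ⟨a, _, rfl⟩ := hl
    intro hE
    have := hE a
    by_cases hs : s a
    · simp only [hs, not_true, decide_false, Bool.false_eq_true, iff_false] at h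
      exact h (this.2 hs)
    · simp only [hs, not_false_iff, decide_true, iff_true] at h
      exact hs (this.1 h)
  · intro h
    push Not at h
    obtain ⟨a, ha⟩ := h
    refine ⟨(a.map z, decide (¬ s a)), mem_image.2 ⟨a, mem_univ _, rfl⟩, ?_⟩
    by_cases hs : s a
    · simp only [hs, not_true, decide_false, Bool.false_eq_true, iff_false]
      tauto
    · simp only [hs, not_false_iff, decide_true, iff_true]
      tauto

theorem Derives.mono {A Q : Type} {F : Dag (Atom σ A) Q} {Φ : Sentence σ} {w w' c : ℕ}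
    (hw : w ≤ w') {L : Finset (Q × Bool)} (h : F.Derives Φ w c L) : F.Derives Φ w' c L := by
  induction h with
  | infer L D X P h1 h2 _ h4 ih => exact Dag.Derives.infer L D X P (h1.trans hw) h2 ih h4

/-- all large domains admit a derivation of the lines for `s` -/
def Good [Finite σ.R] (Φ : Sentence σ) (j : ℕ) (s : Atom σ (Fin j) → Prop) (N : ℕ) : Prop :=
  ∀ (A : Type) (_ : Finite A), N ≤ Nat.card A → ∀ z : Fin j ↪ A,
    (justAtoms σ A).Derives Φ N 1 (clause z s)

theorem Good.mono [Finite σ.R] {Φ : Sentence σ} {j : ℕ} {s : Atom σ (Fin j) → Prop} {N N' : ℕ}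
    (h : Good Φ j s N) (hN : N ≤ N') : Good Φ j s N' := fun A hf hA z =>
  Derives.mono hN (h A hf (hN.trans hA) z)

theorem exists_uniform {ι : Type} [Finite ι] (P : ι → ℕ → Prop)
    (hm : ∀ i N N', N ≤ N' → P i N → P i N') (h : ∀ i, ∃ N, P i N) : ∃ N, ∀ i, P i N := by
  classical
  let _ := Fintype.ofFinite ι
  choose N hN using h
  exact ⟨univ.sup N, fun i => hm i _ _ (le_sup (f := N) (mem_univ i)) (hN i)⟩

theorem good_of_win [Finite σ.R] (Φ : Sentence σ) (j : ℕ) (s : Atom σ (Fin j) → Prop)
    (h : Win Φ j s) : ∃ N, Good Φ j s N := by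
  classical
  induction h with
  | add j s _ ih =>
    obtain ⟨N, hN⟩ := exists_uniform
      (fun (s' : Atom σ (Fin (j + 1)) → Prop) N =>
        Ext (Fin.castLE (Nat.le_add_right j 1)) s s' → Good Φ (j + 1) s' N)
      (fun s' N N' h h1 h2 => (h1 h2).mono h)
      (fun s' => by
        by_cases hs : Ext (Fin.castLE (Nat.le_add_right j 1)) s s'
        · obtain ⟨N, hN⟩ := ih s' hs
          exact ⟨N, fun _ => hN⟩
        · exact ⟨0, fun h => absurd h hs⟩)
    refine ⟨max N (max (Nat.card (Atom σ (Fin j))) (j + 1)), ?_⟩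
    intro A _ hA z
    let _ := Fintype.ofFinite A
    rw [max_le_iff, max_le_iff] at hA
    obtain ⟨a0, ha0⟩ : ∃ a0, a0 ∉ Set.range z := by
      by_contra hcon
      push Not at hcon
      have : Function.Surjective z := fun a => hcon a
      have h2 := Nat.card_le_card_of_surjective z this
      rw [Nat.card_fin] at h2
      omega
    obtain ⟨z', hz', _⟩ := extend (n := 1) z {a0} (card_singleton a0) (fun i hi => by
      rw [mem_singleton] at hi
      exact ha0 ⟨i, hi⟩)
    refine Dag.Derives.infer _ ∅ ∅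
      {L | ∃ s', Ext (Fin.castLE (Nat.le_add_right j 1)) s s' ∧ L = clause z' s'}
      ((card_clause z s).trans (le_max_of_le_right (le_max_left _ _))) (by simp) ?_ ?_
    · rintro _ ⟨s', hs', rfl⟩
      exact Derives.mono (le_max_left _ _) (hN s' hs' A inferInstance hA.1 z')
    · intro S v hv _ _ hP
      have hvS : v = S := funext fun a => propext (hv a a rfl)
      subst hvS
      rw [satLine_clause]
      intro hE
      have := hP _ ⟨fun a => v (a.map z'), fun a => by
        show v ((a.map (Fin.castLE (Nat.le_add_right j 1))).map z') ↔ s a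
        rw [map_map]
        have : a.map (fun x => z' (Fin.castLE (Nat.le_add_right j 1) x)) = a.map z := by
          unfold Atom.map
          congr 1
          funext i
          exact hz' _
        rw [this]
        exact hE a, rfl⟩
      rw [satLine_clause] at this
      exact this fun a => Iff.rfl
  | ask j s x _ ih =>
    obtain ⟨N, hN⟩ := exists_uniform
      (fun (r : Σ n : Fin (Φ.q + 1), (Atom σ (Fin (j + n)) → Prop)) N =>
        Ext (Fin.castLE (Nat.le_add_right j r.1)) s r.2 →
        Φ.Inst r.2 (fun i => Fin.castLE (Nat.le_add_right j r.1) (x i)) →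
        Good Φ (j + r.1) r.2 N)
      (fun s' N N' h h1 h2 h3 => (h1 h2 h3).mono h)
      (fun r => by
        by_cases hs : Ext (Fin.castLE (Nat.le_add_right j r.1)) s r.2 ∧
            Φ.Inst r.2 (fun i => Fin.castLE (Nat.le_add_right j r.1) (x i))
        · obtain ⟨N, hN⟩ := ih r.1 (by have := r.1.2; omega) r.2 hs.1 hs.2
          exact ⟨N, fun _ _ => hN⟩
        · exact ⟨0, fun h h' => absurd ⟨h, h'⟩ hs⟩)
    refine ⟨max N (Nat.card (Atom σ (Fin j))), ?_⟩
    intro A _ hA z
    let _ := Fintype.ofFinite A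
    rw [max_le_iff] at hA
    refine Dag.Derives.infer _ ∅ {fun i => z (x i)}
      {L | ∃ (n : Fin (Φ.q + 1)) (z' : Fin (j + n) ↪ A) (s' : Atom σ (Fin (j + n)) → Prop),
        Ext (Fin.castLE (Nat.le_add_right j n)) s s' ∧
        Φ.Inst s' (fun i => Fin.castLE (Nat.le_add_right j n) (x i)) ∧ L = clause z' s'}
      ((card_clause z s).trans (le_max_right _ _)) (by simp) ?_ ?_
    · rintro _ ⟨n, z', s', hs', hI, rfl⟩
      exact Derives.mono (le_max_left _ _) (hN ⟨n, s'⟩ hs' hI A inferInstance hA.1 z')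
    · intro S v hv _ hX hP
      have hvS : v = S := funext fun a => propext (hv a a rfl)
      subst hvS
      rw [satLine_clause]
      intro hE
      obtain ⟨y, hy⟩ := hX _ (mem_singleton_self _)
      let new : Finset A := (univ.image y).filter fun a => ∀ i, z i ≠ a
      have hnew : new.card ≤ Φ.q := by
        refine (card_filter_le _ _).trans (card_image_le.trans ?_)
        simp
      obtain ⟨z', hz', hz2⟩ := extend z new rfl (fun i hi => by
        simp only [new, mem_filter] at hi
        exact hi.2 i rfl)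
      have hy' : ∀ i, ∃ a, z' a = y i := by
        intro i
        by_cases hi : ∃ a, z a = y i
        · obtain ⟨a, ha⟩ := hi
          exact ⟨_, (hz' a).trans ha⟩
        · push Not at hi
          apply hz2
          simp only [new, mem_filter, mem_image, mem_univ, true_and]
          exact ⟨⟨i, rfl⟩, hi⟩
      choose y' hy' using hy'
      have hE' : Ext z' (fun a => v (a.map z')) v := fun a => Iff.rfl
      have := hP (clause z' fun a => v (a.map z'))
        ⟨⟨new.card, by omega⟩, z', fun a => v (a.map z'), fun a => by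
          show v ((a.map (Fin.castLE (Nat.le_add_right j new.card))).map z') ↔ s a
          rw [map_map]
          have : a.map (fun x => z' (Fin.castLE (Nat.le_add_right j new.card) x)) = a.map z := by
            unfold Atom.map
            congr 1
            funext i
            exact hz' _
          rw [this]
          exact hE a, ⟨y', (theta_iff Φ z'.injective hE' _ y' (fun i => z (x i)) y
            (fun i => (hz' (x i)).symm) (fun i => (hy' i).symm)).2 hy⟩, rfl⟩
      rw [satLine_clause] at this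
      exact this hE'

/-- a position in which the adversary survives -/
structure Pos (Φ : Sentence σ) where
  j : ℕ
  s : Atom σ (Fin j) → Prop
  not_win : ¬ Win Φ j s

/-- `P'` is a larger position -/
def Pos.Le {Φ : Sentence σ} (P P' : Pos Φ) : Prop :=
  ∃ h : P.j ≤ P'.j, Ext (Fin.castLE h) P.s P'.s

theorem Pos.Le.refl {Φ : Sentence σ} (P : Pos Φ) : P.Le P := by
  refine ⟨le_rfl, fun a => ?_⟩
  have : a.map (Fin.castLE le_rfl) = a := by
    unfold Atom.map
    rfl
  rw [this]

theorem Pos.Le.trans {Φ : Sentence σ} {P P' P'' : Pos Φ} (h : P.Le P') (h' : P'.Le P'') :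
    P.Le P'' := by
  obtain ⟨h1, h2⟩ := h
  obtain ⟨h3, h4⟩ := h'
  exact ⟨h1.trans h3, h2.comp h4⟩

theorem Pos.step {Φ : Sentence σ} (P : Pos Φ) (e : Fin Φ.p → ℕ) :
    ∃ P' : Pos Φ, P.Le P' ∧ P.j < P'.j ∧ ∀ x : Fin Φ.p → Fin P.j, (∀ i, (x i : ℕ) = e i) →
      ∃ x' : Fin Φ.p → Fin P'.j, (∀ i, (x' i : ℕ) = e i) ∧ Φ.Inst P'.s x' := by
  have hadd : ∀ P : Pos Φ, ∃ P' : Pos Φ, P.Le P' ∧ P.j < P'.j := by
    intro P
    by_contra hcon
    push Not at hcon
    apply P.not_win
    apply Win.add
    intro s' hs'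
    by_contra hw
    have := hcon ⟨P.j + 1, s', hw⟩ ⟨Nat.le_add_right _ _, hs'⟩
    simp only at this
    omega
  by_cases hx : ∃ x : Fin Φ.p → Fin P.j, ∀ i, (x i : ℕ) = e i
  · obtain ⟨x, hx⟩ := hx
    have hask : ∃ P' : Pos Φ, ∃ h : P.j ≤ P'.j, Ext (Fin.castLE h) P.s P'.s ∧
        Φ.Inst P'.s (fun i => Fin.castLE h (x i)) := by
      by_contra hcon
      push Not at hcon
      apply P.not_win
      apply Win.ask _ _ x
      intro n hn s' hs' hI
      by_contra hw
      exact hcon ⟨P.j + n, s', hw⟩ (Nat.le_add_right _ _) hs' hI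
    obtain ⟨P1, h1, h2, h3⟩ := hask
    obtain ⟨P2, h4, h5⟩ := hadd P1
    refine ⟨P2, Pos.Le.trans ⟨h1, h2⟩ h4, lt_of_le_of_lt h1 h5, ?_⟩
    intro x0 hx0
    obtain ⟨h6, h7⟩ := h4
    refine ⟨fun i => Fin.castLE h6 (Fin.castLE h1 (x i)), fun i => ?_, ?_⟩
    · simp [hx i]
    · exact Inst.mono Φ (Fin.castLE_injective h6) h7 h3
  · obtain ⟨P', h1, h2⟩ := hadd P
    exact ⟨P', h1, h2, fun x hx' => absurd ⟨x, hx'⟩ hx⟩

/-- if the adversary survives then there is an infinite model -/
theorem exists_model (Φ : Sentence σ) (P0 : Pos Φ) : ∃ S : Atom σ ℕ → Prop, Φ.Models S := by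
  classical
  -- enumerate the tuples, each infinitely often
  obtain ⟨e, he⟩ : ∃ e : ℕ → (Fin Φ.p → ℕ), ∀ x n, ∃ m, n ≤ m ∧ e m = x := by
    obtain ⟨g, hg⟩ := exists_surjective_nat (Fin Φ.p → ℕ)
    refine ⟨fun n => g (Nat.unpair n).1, fun x n => ?_⟩
    obtain ⟨a, ha⟩ := hg x
    refine ⟨Nat.pair a n, Nat.right_le_pair a n, ?_⟩
    simp [ha]
  choose nxt h1 h2 h3 using fun (P : Pos Φ) (n : ℕ) => P.step (e n)
  let st : ℕ → Pos Φ := fun n => Nat.rec P0 (fun n P => nxt P n) n
  have hst : ∀ n, st (n + 1) = nxt (st n) n := fun n => rfl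
  have hle : ∀ n m, n ≤ m → (st n).Le (st m) := by
    intro n m hnm
    induction hnm with
    | refl => exact Pos.Le.refl _
    | step _ ih => exact ih.trans (by rw [hst]; exact h1 _ _)
  have hj : ∀ n, n ≤ (st n).j := by
    intro n
    induction n with
    | zero => exact Nat.zero_le _
    | succ n ih =>
      rw [hst]
      have := h2 (st n) n
      omega
  let S : Atom σ ℕ → Prop := fun a => ∃ n, ∃ b : Atom σ (Fin (st n).j), b.map Fin.val = a ∧
    (st n).s b
  have hinj : ∀ j (b b' : Atom σ (Fin j)), b.map Fin.val = b'.map Fin.val → b = b' := by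
    rintro j ⟨r, t⟩ ⟨r', t'⟩ h
    obtain ⟨h0, h⟩ := Sigma.mk.inj h
    simp only at h0
    subst h0
    have h' := eq_of_heq h
    congr 1
    funext i
    exact Fin.ext (congrFun h' i)
  have hS : ∀ n, Ext (Fin.val : Fin (st n).j → ℕ) (st n).s S := by
    intro n b
    constructor
    · rintro ⟨m, b', hb', hs⟩
      rcases le_total n m with hnm | hnm
      · obtain ⟨g1, g2⟩ := hle n m hnm
        have : b' = b.map (Fin.castLE g1) := hinj _ _ _ (by rw [hb', map_map]; rfl)
        rw [← g2 b, ← this]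
        exact hs
      · obtain ⟨g1, g2⟩ := hle m n hnm
        have : b = b'.map (Fin.castLE g1) := hinj _ _ _ (by rw [← hb', map_map]; rfl)
        rw [this, g2 b']
        exact hs
    · intro hs
      exact ⟨n, b, rfl, hs⟩
  refine ⟨S, ?_⟩
  intro x
  obtain ⟨n, hn1, hn2⟩ := he x ((univ.sup x) + 1)
  have hx : ∀ i, x i < (st n).j := by
    intro i
    have := le_sup (f := x) (mem_univ i)
    have := hj n
    omega
  obtain ⟨x', hx', hI⟩ := h3 (st n) n (fun i => ⟨x i, hx i⟩) (fun i => by rw [hn2])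
  have hfin : Φ.Inst S (fun i => ((x' i : Fin (st (n + 1)).j) : ℕ)) :=
    Inst.mono Φ Fin.val_injective (hS (n + 1)) hI
  have hxx : (fun i => ((x' i : Fin (st (n + 1)).j) : ℕ)) = x := by
    funext i
    rw [hx' i, hn2]
  rwa [hxx] at hfin

/-- **Upper bound.**  If the sentence has no infinite model, then there are refutations of bounded
width that use the variables only. -/
theorem refutes_of_no_model [Finite σ.R] (Φ : Sentence σ)
    (h : ∀ S : Atom σ ℕ → Prop, ¬ Φ.Models S) :
    ∃ N, ∀ (A : Type) (_ : Finite A), N ≤ Nat.card A → (justAtoms σ A).Refutes Φ N 1 := by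
  classical
  have hw : ∀ s : Atom σ (Fin 0) → Prop, Win Φ 0 s := by
    intro s
    by_contra hw
    obtain ⟨S, hS⟩ := exists_model Φ ⟨0, s, hw⟩
    exact h S hS
  obtain ⟨N, hN⟩ := exists_uniform (fun (s : Atom σ (Fin 0) → Prop) N => Good Φ 0 s N)
    (fun s N N' h h1 => h1.mono h) (fun s => good_of_win Φ 0 s (hw s))
  refine ⟨N, fun A hA hc => ?_⟩
  let z : Fin 0 ↪ A := ⟨Fin.elim0, fun i => i.elim0⟩
  refine Dag.Derives.infer _ ∅ ∅ {L | ∃ s, L = clause z s} (by simp) (by simp) ?_ ?_
  · rintro _ ⟨s, rfl⟩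
    exact hN s A hA hc z
  · intro S v _ _ _ hP
    exfalso
    have := hP _ ⟨fun a => v (a.map z), rfl⟩
    rw [satLine_clause] at this
    exact this fun a => Iff.rfl

end game

end H688R2.Gap
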